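import Mathlib

/-!
# A balanced configuration whose dimension differs from that of its dual

`C` is the product of the complete `5`-lateral `(10_2, 5_4)` with itself, a `(100_4)`. The Segre
embedding realizes `C` with an affine hull of dimension `8`. The dual configuration has a
realization in the plane, and eight of its points generate all others, so its dimension is at
most `7`.
-/

set_option autoImplicit false

namespace Pool.Agent.Results.MP_d6bd81_co.ProductLateral

open Finset Module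

/-- `(p_q, n_k)` configurations with `p` points and `n` lines given as types -/
structure IsConfig {P L : Type} (I : P → L → Prop) (q k : ℕ) : Prop where
  two_le_q : 2 ≤ q
  two_le_k : 2 ≤ k
  card_lines : ∀ p, Nat.card {l // I p l} = q
  card_points : ∀ l, Nat.card {p // I p l} = k
  inter : ∀ p p', p ≠ p' → ∀ l l', I p l → I p' l → I p l' → I p' l' → l = l'

/-- a geometric realization in `ℝ ^ m` -/
structure IsRealization {P L : Type} (I : P → L → Prop) {m : ℕ} (f : P → Fin m → ℝ)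
    (g : L → AffineSubspace ℝ (Fin m → ℝ)) : Prop where
  point_injective : Function.Injective f
  line_injective : Function.Injective g
  isLine : ∀ l, ∃ a b, a ≠ b ∧ g l = line[ℝ, a, b]
  mem_iff : ∀ p l, f p ∈ g l ↔ I p l

/-- the dimensions of the affine hulls of the realizations -/
def dims {P L : Type} (I : P → L → Prop) : Set ℕ :=
  {d | ∃ m : ℕ, ∃ (f : P → Fin m → ℝ) (g : L → AffineSubspace ℝ (Fin m → ℝ)),
    IsRealization I f g ∧ finrank ℝ (affineSpan ℝ (Set.range f)).direction = d}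

/-- `I` has dimension `d` -/
def IsDim {P L : Type} (I : P → L → Prop) (d : ℕ) : Prop := IsGreatest (dims I) d

/-! ### General facts -/

theorem exists_line {P L : Type} {I : P → L → Prop} {q k : ℕ} (h : IsConfig I q k) {p p' : P}
    (hne : p ≠ p') : ∃ l, I p l ∧ ¬ I p' l := by
  by_contra hcon
  push Not at hcon
  have h1 : Nat.card {l // I p l} ≤ 1 := by
    have : Subsingleton {l // I p l} := by
      constructor
      rintro ⟨l, hl⟩ ⟨l', hl'⟩
      exact Subtype.ext (h.inter p p' hne l l' hl (hcon l hl) hl' (hcon l' hl'))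
    exact Finite.card_le_one_iff_subsingleton.mpr this
  have := h.card_lines p
  have := h.two_le_q
  omega

theorem exists_point {P L : Type} {I : P → L → Prop} {q k : ℕ} (h : IsConfig I q k) {l l' : L}
    (hne : l ≠ l') : ∃ p, I p l ∧ ¬ I p l' := by
  by_contra hcon
  push Not at hcon
  have h1 : Nat.card {p // I p l} ≤ 1 := by
    have : Subsingleton {p // I p l} := by
      constructor
      rintro ⟨p, hp⟩ ⟨p', hp'⟩
      by_contra hpp
      have hpp' : p ≠ p' := fun e => hpp (Subtype.ext e)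
      exact hne (h.inter p p' hpp' l l' hp hp' (hcon p hp) (hcon p' hp'))
    exact Finite.card_le_one_iff_subsingleton.mpr this
  have := h.card_points l
  have := h.two_le_k
  omega

theorem isRealization_of {P L : Type} {I : P → L → Prop} {q k : ℕ} (h : IsConfig I q k) {m : ℕ}
    {f : P → Fin m → ℝ} {g : L → AffineSubspace ℝ (Fin m → ℝ)}
    (isLine : ∀ l, ∃ a b, a ≠ b ∧ g l = line[ℝ, a, b]) (mem_iff : ∀ p l, f p ∈ g l ↔ I p l) :
    IsRealization I f g where
  point_injective := by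
    intro p p' he
    by_contra hne
    obtain ⟨l, h1, h2⟩ := exists_line h hne
    exact h2 ((mem_iff p' l).mp (he ▸ (mem_iff p l).mpr h1))
  line_injective := by
    intro l l' he
    by_contra hne
    obtain ⟨p, h1, h2⟩ := exists_point h hne
    exact h2 ((mem_iff p l').mp (he ▸ (mem_iff p l).mpr h1))
  isLine := isLine
  mem_iff := mem_iff

/-- two points of a line in a subspace put the whole line there -/
theorem closure_step {P L : Type} {I : P → L → Prop} {m : ℕ} {f : P → Fin m → ℝ}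
    {g : L → AffineSubspace ℝ (Fin m → ℝ)} (h : IsRealization I f g)
    (W : AffineSubspace ℝ (Fin m → ℝ)) (l : L) {p p' r : P} (hne : p ≠ p') (hp : I p l)
    (hp' : I p' l) (hr : I r l) (hpW : f p ∈ W) (hp'W : f p' ∈ W) : f r ∈ W := by
  obtain ⟨a, b, hab, he⟩ := h.isLine l
  have m1 := (h.mem_iff p l).mpr hp
  have m2 := (h.mem_iff p' l).mpr hp'
  have m3 := (h.mem_iff r l).mpr hr
  rw [he] at m1 m2 m3
  have hfne : f p ≠ f p' := fun e => hne (h.point_injective e)
  have heq : line[ℝ, f p, f p'] = line[ℝ, a, b] :=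
    affineSpan_pair_eq_of_mem_of_mem_of_ne m1 m2 hfne
  rw [← heq] at m3
  exact affineSpan_pair_le_of_mem_of_mem hpW hp'W m3

/-! ### The configuration -/

/-- the points of the complete `5`-lateral: pairs of its lines -/
abbrev Pr : Type := {x : Fin 5 × Fin 5 // x.1 < x.2}

/-- line `i` contains the point `c` -/
def On (i : Fin 5) (c : Pr) : Prop := i = c.1.1 ∨ i = c.1.2

instance (i : Fin 5) (c : Pr) : Decidable (On i c) := by unfold On; infer_instance

/-- the points of the product -/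
abbrev Pt : Type := Pr × Pr

/-- the lines of the product -/
abbrev Ln : Type := (Fin 5 × Pr) ⊕ (Pr × Fin 5)

/-- incidence in the product -/
def Inc (p : Pt) : Ln → Prop
  | Sum.inl (i, c) => On i p.1 ∧ p.2 = c
  | Sum.inr (a, k) => p.1 = a ∧ On k p.2

instance (p : Pt) (l : Ln) : Decidable (Inc p l) := by
  rcases l with ⟨i, c⟩ | ⟨a, k⟩ <;> unfold Inc <;> infer_instance

theorem on_unique : ∀ (a b : Pr), a ≠ b → ∀ i j : Fin 5, On i a → On i b → On j a → On j b →
    i = j := by decide +kernel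

theorem isConfig : IsConfig Inc 4 4 where
  two_le_q := by norm_num
  two_le_k := by norm_num
  card_lines := by
    intro p
    rw [Nat.card_eq_fintype_card]
    revert p
    decide +kernel
  card_points := by
    intro l
    rw [Nat.card_eq_fintype_card]
    revert l
    decide +kernel
  inter := by
    rintro ⟨a, b⟩ ⟨a', b'⟩ hne l l' h1 h2 h3 h4
    rcases l with ⟨i, c⟩ | ⟨c, i⟩ <;> rcases l' with ⟨j, e⟩ | ⟨e, j⟩ <;>
      simp only [Inc] at h1 h2 h3 h4
    · obtain ⟨h1, rfl⟩ := h1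
      obtain ⟨h2, rfl⟩ := h2
      obtain ⟨h3, rfl⟩ := h3
      obtain ⟨h4, -⟩ := h4
      have : a ≠ a' := fun h => hne (by rw [h])
      rw [on_unique a a' this i j h1 h2 h3 h4]
    · obtain ⟨h1, rfl⟩ := h1
      obtain ⟨h2, rfl⟩ := h2
      obtain ⟨rfl, h3⟩ := h3
      obtain ⟨rfl, h4⟩ := h4
      exact absurd rfl hne
    · obtain ⟨rfl, h1⟩ := h1
      obtain ⟨rfl, h2⟩ := h2
      obtain ⟨h3, rfl⟩ := h3
      obtain ⟨h4, rfl⟩ := h4
      exact absurd rfl hne
    · obtain ⟨rfl, h1⟩ := h1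
      obtain ⟨rfl, h2⟩ := h2
      obtain ⟨rfl, h3⟩ := h3
      obtain ⟨-, h4⟩ := h4
      have : b ≠ b' := fun h => hne (by rw [h])
      rw [on_unique b b' this i j h1 h2 h3 h4]

theorem IsConfig.dual {P L : Type} {I : P → L → Prop} {q k : ℕ} (h : IsConfig I q k) :
    IsConfig (fun l p => I p l) k q where
  two_le_q := h.two_le_k
  two_le_k := h.two_le_q
  card_lines := h.card_points
  card_points := h.card_lines
  inter := by
    intro l l' hne p p' h1 h2 h3 h4
    by_contra hpp
    exact hne (h.inter p p' hpp l l' h1 h3 h2 h4)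

/-! ### The Segre realization -/

/-- the points `(x + i + j - 1, i j)` -/
def px (c : Pr) : ℤ := (c.1.1 : ℕ) + (c.1.2 : ℕ) - 1

/-- second coordinate -/
def py (c : Pr) : ℤ := (c.1.1 : ℕ) * (c.1.2 : ℕ)

theorem pr_inj : ∀ a b : Pr, (px a = px b ∧ py a = py b) ↔ a = b := by decide +kernel

theorem pr_on : ∀ (i : Fin 5) (a : Pr),
    (py a = (i : ℕ) * px a + ((i : ℕ) - (i : ℕ) * (i : ℕ))) ↔ On i a := by decide +kernel

/-- the Segre map -/
def segre (x y x' y' : ℝ) : Fin 8 → ℝ := ![x, y, x', y', x * x', x * y', y * x', y * y']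

theorem segre_left (x0 y0 x1 y1 X Y r : ℝ) :
    (AffineMap.lineMap (segre x0 y0 X Y) (segre x1 y1 X Y) r : Fin 8 → ℝ) =
      segre (x0 + r * (x1 - x0)) (y0 + r * (y1 - y0)) X Y := by
  funext t
  simp only [AffineMap.lineMap_apply_module', Pi.add_apply, Pi.smul_apply, Pi.sub_apply,
    smul_eq_mul]
  fin_cases t <;> simp [segre] <;> ring

theorem segre_right (x0 y0 x1 y1 X Y r : ℝ) :
    (AffineMap.lineMap (segre X Y x0 y0) (segre X Y x1 y1) r : Fin 8 → ℝ) =
      segre X Y (x0 + r * (x1 - x0)) (y0 + r * (y1 - y0)) := by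
  funext t
  simp only [AffineMap.lineMap_apply_module', Pi.add_apply, Pi.smul_apply, Pi.sub_apply,
    smul_eq_mul]
  fin_cases t <;> simp [segre] <;> ring

theorem segre_inj {x y x' y' X Y X' Y' : ℝ} :
    segre x y x' y' = segre X Y X' Y' ↔ x = X ∧ y = Y ∧ x' = X' ∧ y' = Y' := by
  constructor
  · intro h
    exact ⟨congrFun h 0, congrFun h 1, congrFun h 2, congrFun h 3⟩
  · rintro ⟨rfl, rfl, rfl, rfl⟩
    rfl

/-- the points of the realization -/
noncomputable def fC (p : Pt) : Fin 8 → ℝ := segre (px p.1) (py p.1) (px p.2) (py p.2)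

/-- the lines of the realization -/
noncomputable def gC : Ln → AffineSubspace ℝ (Fin 8 → ℝ)
  | Sum.inl (i, c) => line[ℝ, segre 0 ((i : ℕ) - (i : ℕ) * (i : ℕ)) (px c) (py c),
      segre 1 ((i : ℕ) + ((i : ℕ) - (i : ℕ) * (i : ℕ))) (px c) (py c)]
  | Sum.inr (a, k) => line[ℝ, segre (px a) (py a) 0 ((k : ℕ) - (k : ℕ) * (k : ℕ)),
      segre (px a) (py a) 1 ((k : ℕ) + ((k : ℕ) - (k : ℕ) * (k : ℕ)))]

theorem real_C : IsRealization Inc fC gC := by
  refine isRealization_of isConfig ?_ ?_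
  · rintro (⟨i, c⟩ | ⟨a, k⟩)
    · refine ⟨_, _, ?_, rfl⟩
      intro h
      have := congrFun h 0
      simp [segre] at this
    · refine ⟨_, _, ?_, rfl⟩
      intro h
      have := congrFun h 2
      simp [segre] at this
  · rintro ⟨a, b⟩ (⟨i, c⟩ | ⟨c, k⟩)
    · rw [gC, mem_affineSpan_pair_iff_exists_lineMap_eq]
      simp only [segre_left, fC, segre_inj, Inc]
      rw [← pr_inj b c, ← pr_on i a]
      constructor
      · rintro ⟨r, h1, h2, h3, h4⟩
        refine ⟨?_, ?_, ?_⟩
        · have : (py a : ℝ) = (i : ℕ) * (px a : ℝ) + ((i : ℕ) - (i : ℕ) * (i : ℕ)) := by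
            rw [← h1, ← h2]; ring
          exact_mod_cast this
        · exact_mod_cast h3.symm
        · exact_mod_cast h4.symm
      · rintro ⟨h1, h2, h3⟩
        have h1' : (py a : ℝ) = (i : ℕ) * (px a : ℝ) + ((i : ℕ) - (i : ℕ) * (i : ℕ)) := by
          exact_mod_cast h1
        refine ⟨px a, by ring, ?_, by rw [h2], by rw [h3]⟩
        rw [h1']; ring
    · rw [gC, mem_affineSpan_pair_iff_exists_lineMap_eq]
      simp only [segre_right, fC, segre_inj, Inc]
      rw [← pr_inj a c, ← pr_on k b]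
      constructor
      · rintro ⟨r, h3, h4, h1, h2⟩
        refine ⟨⟨?_, ?_⟩, ?_⟩
        · exact_mod_cast h3.symm
        · exact_mod_cast h4.symm
        · have : (py b : ℝ) = (k : ℕ) * (px b : ℝ) + ((k : ℕ) - (k : ℕ) * (k : ℕ)) := by
            rw [← h1, ← h2]; ring
          exact_mod_cast this
      · rintro ⟨⟨h2, h3⟩, h1⟩
        have h1' : (py b : ℝ) = (k : ℕ) * (px b : ℝ) + ((k : ℕ) - (k : ℕ) * (k : ℕ)) := by
          exact_mod_cast h1
        refine ⟨px b, by rw [h2], by rw [h3], by ring, ?_⟩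
        rw [h1']; ring

/-- a pair of lines of the complete `5`-lateral -/
def mk (i j : Fin 5) (h : i < j) : Pr := ⟨(i, j), h⟩

theorem eight_le : finrank ℝ (affineSpan ℝ (Set.range fC)).direction = 8 := by
  set V := (affineSpan ℝ (Set.range fC)).direction with hV
  have hmem : ∀ p q : Pt, fC p - fC q ∈ V := by
    intro p q
    have h1 : fC p ∈ affineSpan ℝ (Set.range fC) := mem_affineSpan ℝ (Set.mem_range_self p)
    have h2 : fC q ∈ affineSpan ℝ (Set.range fC) := mem_affineSpan ℝ (Set.mem_range_self q)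
    exact AffineSubspace.vsub_mem_direction h1 h2
  have ho : (px (mk 0 1 (by decide)) : ℝ) = 0 ∧ (py (mk 0 1 (by decide)) : ℝ) = 0 := by
    norm_num [px, py, mk]
  have ha : (px (mk 0 2 (by decide)) : ℝ) = 1 ∧ (py (mk 0 2 (by decide)) : ℝ) = 0 := by
    norm_num [px, py, mk]
  have hb : (px (mk 1 2 (by decide)) : ℝ) = 2 ∧ (py (mk 1 2 (by decide)) : ℝ) = 2 := by
    norm_num [px, py, mk]
  have hz : fC (mk 0 1 (by decide), mk 0 1 (by decide)) = 0 := by
    rw [fC]
    simp only [ho.1, ho.2]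
    funext t
    fin_cases t <;> simp [segre]
  have hV1 : ∀ p : Pt, fC p ∈ V := by
    intro p
    have := hmem p (mk 0 1 (by decide), mk 0 1 (by decide))
    rwa [hz, sub_zero] at this
  have v1 : segre 1 0 0 0 ∈ V := by
    have := hV1 (mk 0 2 (by decide), mk 0 1 (by decide))
    rw [fC] at this
    simpa only [ho.1, ho.2, ha.1, ha.2, hb.1, hb.2] using this
  have v2 : segre 2 2 0 0 ∈ V := by
    have := hV1 (mk 1 2 (by decide), mk 0 1 (by decide))
    rw [fC] at this
    simpa only [ho.1, ho.2, ha.1, ha.2, hb.1, hb.2] using this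
  have v3 : segre 0 0 1 0 ∈ V := by
    have := hV1 (mk 0 1 (by decide), mk 0 2 (by decide))
    rw [fC] at this
    simpa only [ho.1, ho.2, ha.1, ha.2, hb.1, hb.2] using this
  have v4 : segre 0 0 2 2 ∈ V := by
    have := hV1 (mk 0 1 (by decide), mk 1 2 (by decide))
    rw [fC] at this
    simpa only [ho.1, ho.2, ha.1, ha.2, hb.1, hb.2] using this
  have v5 : segre 1 0 1 0 ∈ V := by
    have := hV1 (mk 0 2 (by decide), mk 0 2 (by decide))
    rw [fC] at this
    simpa only [ho.1, ho.2, ha.1, ha.2, hb.1, hb.2] using this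
  have v6 : segre 1 0 2 2 ∈ V := by
    have := hV1 (mk 0 2 (by decide), mk 1 2 (by decide))
    rw [fC] at this
    simpa only [ho.1, ho.2, ha.1, ha.2, hb.1, hb.2] using this
  have v7 : segre 2 2 1 0 ∈ V := by
    have := hV1 (mk 1 2 (by decide), mk 0 2 (by decide))
    rw [fC] at this
    simpa only [ho.1, ho.2, ha.1, ha.2, hb.1, hb.2] using this
  have v8 : segre 2 2 2 2 ∈ V := by
    have := hV1 (mk 1 2 (by decide), mk 1 2 (by decide))
    rw [fC] at this
    simpa only [ho.1, ho.2, ha.1, ha.2, hb.1, hb.2] using this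
  have htop : V = ⊤ := by
    rw [Submodule.eq_top_iff']
    intro w
    have hw : w = (w 0 - w 1 - (w 4 - w 5 - w 6 + w 7) - (w 5 - w 7) / 2) • segre 1 0 0 0 +
        ((w 1 - (w 6 - w 7) - w 7 / 2) / 2) • segre 2 2 0 0 +
        (w 2 - w 3 - (w 4 - w 5 - w 6 + w 7) - (w 6 - w 7) / 2) • segre 0 0 1 0 +
        ((w 3 - (w 5 - w 7) - w 7 / 2) / 2) • segre 0 0 2 2 +
        (w 4 - w 5 - w 6 + w 7) • segre 1 0 1 0 + ((w 5 - w 7) / 2) • segre 1 0 2 2 +
        ((w 6 - w 7) / 2) • segre 2 2 1 0 + (w 7 / 4) • segre 2 2 2 2 := by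
      funext t
      fin_cases t <;> simp [segre] <;> ring
    rw [hw]
    exact V.add_mem (V.add_mem (V.add_mem (V.add_mem (V.add_mem (V.add_mem (V.add_mem
      (V.smul_mem _ v1) (V.smul_mem _ v2)) (V.smul_mem _ v3)) (V.smul_mem _ v4))
      (V.smul_mem _ v5)) (V.smul_mem _ v6)) (V.smul_mem _ v7)) (V.smul_mem _ v8)
  rw [htop, finrank_top, Module.finrank_fin_fun]

/-! ### The plane realization of the dual -/

/-- abscissas `s i` -/
def sv : Fin 5 → ℤ := ![-3, -2, 1, 2, 6]

/-- abscissas `t k` -/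
def tv : Fin 5 → ℤ := ![-8, -6, -1, 5, 7]

/-- abscissa of the point of the dual that is the line `l` -/
def dx : Ln → ℤ
  | Sum.inl (i, _) => sv i
  | Sum.inr (_, k) => tv k

/-- ordinate -/
def dy : Ln → ℤ
  | Sum.inl (i, c) => sv i * sv i + 7 * ((tv c.1.1 + tv c.1.2) * sv i - tv c.1.1 * tv c.1.2)
  | Sum.inr (a, k) => (sv a.1.1 + sv a.1.2) * tv k - sv a.1.1 * sv a.1.2 + 7 * (tv k * tv k)

/-- slope of the line of the dual that is the point `p` -/
def dm (p : Pt) : ℤ := sv p.1.1.1 + sv p.1.1.2 + 7 * (tv p.2.1.1 + tv p.2.1.2)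

/-- intercept -/
def dc (p : Pt) : ℤ := -(sv p.1.1.1 * sv p.1.1.2) - 7 * (tv p.2.1.1 * tv p.2.1.2)

theorem dual_inc : ∀ (l : Ln) (p : Pt), (dy l = dm p * dx l + dc p) ↔ Inc p l := by
  decide +kernel

/-- the points of the plane realization of the dual -/
noncomputable def fD (l : Ln) : Fin 2 → ℝ := ![(dx l : ℝ), (dy l : ℝ)]

/-- the lines of the plane realization of the dual -/
noncomputable def gD (p : Pt) : AffineSubspace ℝ (Fin 2 → ℝ) :=
  line[ℝ, ![(0 : ℝ), (dc p : ℝ)], ![(1 : ℝ), (dm p : ℝ) + (dc p : ℝ)]]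

theorem real_D : IsRealization (fun l p => Inc p l) fD gD := by
  refine isRealization_of isConfig.dual ?_ ?_
  · intro p
    refine ⟨_, _, ?_, rfl⟩
    intro h
    have := congrFun h 0
    simp at this
  · intro l p
    rw [← dual_inc l p, gD, mem_affineSpan_pair_iff_exists_lineMap_eq]
    have key : ∀ r : ℝ, (AffineMap.lineMap ![(0 : ℝ), (dc p : ℝ)]
        ![(1 : ℝ), (dm p : ℝ) + (dc p : ℝ)] r : Fin 2 → ℝ) =
        ![r, (dm p : ℝ) * r + (dc p : ℝ)] := by
      intro r
      funext t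
      simp only [AffineMap.lineMap_apply_module', Pi.add_apply, Pi.smul_apply, Pi.sub_apply,
        smul_eq_mul]
      fin_cases t
      · simp
      · simp; ring
    simp only [key, fD]
    constructor
    · rintro ⟨r, h⟩
      have h0 : r = dx l := congrFun h 0
      have h1 : (dm p : ℝ) * r + dc p = dy l := congrFun h 1
      rw [h0] at h1
      exact_mod_cast h1.symm
    · intro h
      refine ⟨dx l, ?_⟩
      have h' : (dy l : ℝ) = dm p * dx l + dc p := by exact_mod_cast h
      rw [h']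

/-! ### Eight points generate the dual -/

/-- the generators -/
def gen : Fin 8 → Ln := ![Sum.inl (0, mk 0 1 (by decide)), Sum.inl (1, mk 0 1 (by decide)),
  Sum.inl (2, mk 0 1 (by decide)), Sum.inl (3, mk 0 1 (by decide)),
  Sum.inl (4, mk 0 1 (by decide)), Sum.inl (0, mk 0 2 (by decide)),
  Sum.inl (0, mk 0 3 (by decide)), Sum.inl (0, mk 0 4 (by decide))]

theorem gen1 : ∀ i : Fin 5, ∃ t, gen t = Sum.inl (i, mk 0 1 (by decide)) := by
  decide +kernel

theorem gen2 : ∀ c : Pr, On 0 c → ∃ t, gen t = Sum.inl (0, c) := by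
  decide +kernel

theorem fst_ne (c : Pr) : c.1.1 ≠ c.1.2 := ne_of_lt c.2

theorem dual_le {m : ℕ} {f : Ln → Fin m → ℝ} {g : Pt → AffineSubspace ℝ (Fin m → ℝ)}
    (h : IsRealization (fun l p => Inc p l) f g) :
    finrank ℝ (affineSpan ℝ (Set.range f)).direction ≤ 7 := by
  set W := affineSpan ℝ (Set.range (f ∘ gen)) with hW
  have hgen : ∀ t, f (gen t) ∈ W := fun t => mem_affineSpan ℝ ⟨t, rfl⟩
  -- the points `(i, 01)`
  have s1 : ∀ i : Fin 5, f (Sum.inl (i, mk 0 1 (by decide))) ∈ W := by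
    intro i
    obtain ⟨t, ht⟩ := gen1 i
    rw [← ht]
    exact hgen t
  have s1' : ∀ c : Pr, On 0 c → f (Sum.inl (0, c)) ∈ W := by
    intro c hc
    obtain ⟨t, ht⟩ := gen2 c hc
    rw [← ht]
    exact hgen t
  -- a line `(a, b)` with both points `(i, b)`, `i ∈ a` in `W`
  have s2 : ∀ (a b : Pr) (k : Fin 5), On k b → f (Sum.inl (a.1.1, b)) ∈ W →
      f (Sum.inl (a.1.2, b)) ∈ W → f (Sum.inr (a, k)) ∈ W := by
    intro a b k hk h1 h2
    refine closure_step h W (a, b) (p := Sum.inl (a.1.1, b)) (p' := Sum.inl (a.1.2, b)) ?_ ?_ ?_ ?_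
      h1 h2
    · intro he
      simp only [Sum.inl.injEq, Prod.mk.injEq] at he
      exact fst_ne a he.1
    · exact ⟨Or.inl rfl, rfl⟩
    · exact ⟨Or.inr rfl, rfl⟩
    · exact ⟨rfl, hk⟩
  have s3 : ∀ (a : Pr), f (Sum.inr (a, 0)) ∈ W := by
    intro a
    exact s2 a (mk 0 1 (by decide)) 0 (Or.inl rfl) (s1 _) (s1 _)
  have s4 : ∀ (c : Pr), On 0 c → ∀ j, f (Sum.inl (j, c)) ∈ W := by
    intro c hc j
    by_cases hj : j = 0
    · rw [hj]; exact s1' c hc
    · have hj' : (0 : Fin 5) < j := Fin.pos_iff_ne_zero.mpr hj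
      refine closure_step h W (mk 0 j hj', c) (p := Sum.inl (0, c)) (p' := Sum.inr (mk 0 j hj', 0))
        ?_ ?_ ?_ ?_ (s1' c hc) (s3 _)
      · exact Sum.inl_ne_inr
      · exact ⟨Or.inl rfl, rfl⟩
      · exact ⟨rfl, hc⟩
      · exact ⟨Or.inr rfl, rfl⟩
  have s5 : ∀ (a : Pr) (k : Fin 5), f (Sum.inr (a, k)) ∈ W := by
    intro a k
    by_cases hk : k = 0
    · rw [hk]; exact s3 a
    · have hk' : (0 : Fin 5) < k := Fin.pos_iff_ne_zero.mpr hk
      have hon : On 0 (mk 0 k hk') := Or.inl rfl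
      exact s2 a (mk 0 k hk') k (Or.inr rfl) (s4 _ hon _) (s4 _ hon _)
  have s6 : ∀ (i : Fin 5), ∃ a : Pr, On i a := by decide
  have s7 : ∀ (i : Fin 5) (c : Pr), f (Sum.inl (i, c)) ∈ W := by
    intro i c
    obtain ⟨a, ha⟩ := s6 i
    refine closure_step h W (a, c) (p := Sum.inr (a, c.1.1)) (p' := Sum.inr (a, c.1.2)) ?_ ?_ ?_ ?_
      (s5 _ _) (s5 _ _)
    · intro he
      simp only [Sum.inr.injEq, Prod.mk.injEq] at he
      exact fst_ne c he.2
    · exact ⟨rfl, Or.inl rfl⟩
    · exact ⟨rfl, Or.inr rfl⟩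
    · exact ⟨ha, rfl⟩
  have hle : affineSpan ℝ (Set.range f) ≤ W := by
    rw [affineSpan_le]
    rintro _ ⟨l, rfl⟩
    rcases l with ⟨i, c⟩ | ⟨a, k⟩
    · exact s7 i c
    · exact s5 a k
  have hdir := AffineSubspace.direction_le hle
  refine (Submodule.finrank_mono hdir).trans ?_
  rw [hW, direction_affineSpan]
  exact finrank_vectorSpan_range_le ℝ (f ∘ gen) (by simp)

/-- the dimension of a configuration with `n + 1` points is at most `n` -/
theorem bddAbove_dims {P L : Type} [Fintype P] (I : P → L → Prop) (n : ℕ)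
    (hn : Fintype.card P = n + 1) : BddAbove (dims I) := by
  refine ⟨n, ?_⟩
  rintro d ⟨m, f, g, -, rfl⟩
  rw [direction_affineSpan]
  exact finrank_vectorSpan_range_le ℝ f hn

/-- There is a balanced configuration, a `(100_4)`, such that it and its dual have geometric
realizations, its dimension `d` is at least `8` and the dimension `d'` of its dual is at most
`7`. -/
theorem result : ∃ (P L : Type) (_ : Fintype P) (_ : Fintype L) (I : P → L → Prop),
    IsConfig I 4 4 ∧ Fintype.card P = 100 ∧ Fintype.card L = 100 ∧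
      ∃ d d' : ℕ, IsDim I d ∧ IsDim (fun l p => I p l) d' ∧ 8 ≤ d ∧ d' ≤ 7 := by
  have cP : Fintype.card Pt = 100 := by decide +kernel
  have cL : Fintype.card Ln = 100 := by decide +kernel
  have b1 : BddAbove (dims Inc) := bddAbove_dims Inc 99 cP
  have b2 : BddAbove (dims fun (l : Ln) (p : Pt) => Inc p l) :=
    bddAbove_dims (fun (l : Ln) (p : Pt) => Inc p l) 99 cL
  have m1 : 8 ∈ dims Inc := ⟨8, fC, gC, real_C, eight_le⟩
  have m2 : (dims fun (l : Ln) (p : Pt) => Inc p l).Nonempty := ⟨_, 2, fD, gD, real_D, rfl⟩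
  refine ⟨Pt, Ln, inferInstance, inferInstance, Inc, isConfig, cP, cL, sSup (dims Inc),
    sSup (dims fun (l : Ln) (p : Pt) => Inc p l), ⟨Nat.sSup_mem ⟨8, m1⟩ b1, ?_⟩,
    ⟨Nat.sSup_mem m2 b2, ?_⟩, ?_, ?_⟩
  · exact fun d hd => le_csSup b1 hd
  · exact fun d hd => le_csSup b2 hd
  · exact le_csSup b1 m1
  · refine csSup_le m2 ?_
    rintro d ⟨m, f, g, h, rfl⟩
    exact dual_le h

end Pool.Agent.Results.MP_d6bd81_co.ProductLateral
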